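import Pool.Agent.Lib.MP_6b4821_lc.Main

/-!
# Martin's axiom refutes the statement of Q1

Assume Martin's axiom and not CH (only `p > ω₁` is used).

* A countably compact subgroup `D` of a compact group of weight at most `ω₁` is `ω`-bounded: a
  point in the closure of a countable subset of `D` has character at most `ω₁`, so it is a limit
  along an infinite set of indices, hence lies in `D`.
* Let `H` be a Hausdorff group, the image of `D` under a continuous homomorphism. The sets
  `T⁻¹ T`, `T` the closure of the image of `D ∩ V`, `V` a basic neighbourhood of the identity, form a
  base at the identity of `H`, so `H` has weight at most `ω₁`, and `H` is `ω`-bounded.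
* If the weight of `H` is countable, `H` is compact. Otherwise choose `x α ≠ 1` in the first `α`
  basic neighbourhoods of the identity. The union of `{1}` and of the closures of
  `{x α : α ≤ β}`, `β < ω₁`, is compact and has weight `ω₁`.

So every countably compact subgroup of the non-metrizable compact abelian group `Z(2)^ω₁` is
projectively w-compact.
-/

open Set Cardinal

namespace Pool.Agent.Results.MP_6b4821_lc.MartinRefutes

open Pool.Agent.Lib.MP_6b4821_lc

theorem result (ma : MartinsAxiom) (nch : ¬ CH) :
    (∀ (G : Type) [Group G] [TopologicalSpace G] [IsTopologicalGroup G] [CompactSpace G]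
      [T2Space G], weight G ≤ Cardinal.aleph 1 → ∀ D : Subgroup G,
        IsCountablyCompact (D : Set G) → ProjWCompact D ∧
          ((D : Set G).Infinite → ∃ C : Set G, C ⊆ D ∧ IsCompact C ∧ ¬ C.Countable)) ∧
    ¬ Q1Statement :=
  main ma nch

end Pool.Agent.Results.MP_6b4821_lc.MartinRefutes
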