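import Pool.Agent.Lib.MP_6b4821_lc.Final

/-!
# MP_6b4821_lc: ZFC does not prove the statement of Q1

There is a model `(M, ∈)` of ZFC in which some non-metrizable compact abelian group `G` has all of
its countably compact subgroups (in particular all of its dense countably compact subgroups)
projectively `w`-compact. All topological and set-theoretic notions are those of the model: they
are defined in `Pool.Agent.Lib.MP_6b4821_lc.IStmt`, `Pool.Agent.Lib.MP_5db68c_lc.Defs`,
`Pool.Agent.Lib.MP_5ed4ef_gt.Defs` (`IsSubspace`) and `Pool.Agent.Lib.MP_a1c723_lc.BV.Defs`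
(`ModelZFC`).

The model is the Boolean ultrapower of a c.c.c. extension in which every family of at most `ω₁`
subsets of `ω` with infinite finite intersections has an infinite pseudo-intersection; `G` is the
group `P(ω₁) = Z(2)^{ω₁}` of the model.
-/

set_option autoImplicit false

namespace Pool.Agent.Results.MP_6b4821_lc.NegationConsistent

open Pool.Agent.MP_5db68c_lc Pool.Agent.StarRoth.BV Pool.Agent.Lib.MP_6b4821_lc

theorem result : ∃ (M : Type) (_ : Membership M M), ModelZFC M ∧
    ∃ G : TopGroupIn M, (∀ x y : El G.carrier, x * y = y * x) ∧ IsCompactIn G.carrier G.top ∧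
      ¬ Metrizable G.carrier G.top ∧ (∀ b : M, IsBaseIn G.top b → ¬ CountableIn b) ∧
      ∀ D : TopGroupIn M, IsSubgroupIn G D → IsCtblyCompactIn D.carrier D.top →
        ProjWCompactIn D :=
  negation_consistent

end Pool.Agent.Results.MP_6b4821_lc.NegationConsistent
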